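import Pool.Agent.Lib.MP_f3b2fd_co.KEP.U.St

/-! All packings of largest soft density: definitions and the compactness step. -/

set_option autoImplicit false

namespace Pool.Agent.Lib.MP_f3b2fd_co.KV

open MeasureTheory Set Real Metric Filter Topology
open scoped ENNReal

/-- the upper density of a set. -/
noncomputable def ud (A : Set E3) : ℝ≥0∞ :=
  limsup (fun R : ℝ => volume (ball 0 R ∩ A) / volume (ball (0 : E3) R)) atTop

/-- `X` and `Y` agree up to `ε` within distance `ρ` of `y`. -/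
def Cl (X Y : Set E3) (y : E3) (ρ ε : ℝ) : Prop :=
  (∀ x ∈ X, dist x y < ρ → ∃ z ∈ Y, dist x z < ε) ∧
    ∀ z ∈ Y, dist z y < ρ → ∃ x ∈ X, dist x z < ε

/-- an isometric image of a stacking. -/
def Bar (Y : Set E3) : Prop :=
  ∃ s, KU.Steps s ∧ ∃ g : E3 ≃ᵢ E3, Y = g '' {x | ∃ i j k, x = KC.bp s i j k}

/-- mutual distances are at least two. -/
def Sep (X : Set E3) : Prop := ∀ x ∈ X, ∀ w ∈ X, x ≠ w → 2 ≤ dist x w

/-- twelve neighbours within `2 + η`. -/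
def Tw (X : Set E3) (η : ℝ) (v : E3) : Prop :=
  ∃ N : Finset E3, N.card = 12 ∧ ∀ w ∈ N, w ∈ X ∧ w ≠ v ∧ dist v w ≤ 2 + η

/-- the final statement. -/
def FinV : Prop := ∀ l : ℝ, 0 < l → l < 1 / 1000 → ∀ X : Set E3,
  (X.PairwiseDisjoint fun x => ball x 1) → (KC.sd X l = ENNReal.ofReal (Wv l / √32) ↔
    ∀ ρ ε : ℝ, 0 < ρ → 0 < ε → ud {y | ∃ Y, Bar Y ∧ Cl X Y y ρ ε} = 1)

theorem Sep.disj {X : Set E3} (h : Sep X) : X.PairwiseDisjoint fun x => ball x 1 :=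
  fun x hx w hw n => (disjoint_ball_ball_iff one_pos one_pos).2 (by linarith [h x hx w hw n])

theorem sep_of {X : Set E3} (h : X.PairwiseDisjoint fun x => ball x 1) : Sep X :=
  fun x hx w hw n => by
    have := (disjoint_ball_ball_iff one_pos one_pos).1 (h hx hw n)
    linarith

theorem cpt0 (hK : ∀ X, Sep X → X.Nonempty → (∀ v ∈ X, Tw X 0 v) → Bar X) {ρ ε : ℝ}
    (hε : 0 < ε) : ∃ n : ℕ, ∀ X, Sep X → (∃ v ∈ X, ‖v‖ ≤ 2) →
      (∀ v ∈ X, ‖v‖ < n + 1 → Tw X (1 / (n + 1)) v) → ∃ Y, Bar Y ∧ Cl X Y 0 ρ ε := by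
  classical
  by_contra hn
  push Not at hn
  choose Z z1 z2 z3 z4 using hn
  set U : Ultrafilter ℕ := Ultrafilter.of atTop with hU
  have uT : (U : Filter ℕ) ≤ atTop := Ultrafilter.of_le _
  set Y : Set E3 := {z | ∀ δ > 0, ∀ᶠ n in (U : Filter ℕ), ∃ x ∈ Z n, dist x z < δ} with hY
  have lim : ∀ (x : ℕ → E3) (r : ℝ), (∀ᶠ n in (U : Filter ℕ), x n ∈ Z n ∧ ‖x n‖ ≤ r) →
      ∃ z ∈ Y, Tendsto x U (𝓝 z) := fun x r h => by
    obtain ⟨z, -, hz⟩ := (isCompact_closedBall (0 : E3) r).ultrafilter_le_nhds (U.map x)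
      (le_principal_iff.2 (h.mono fun n hn => mem_closedBall_zero_iff.2 hn.2))
    have t : Tendsto x U (𝓝 z) := hz
    refine ⟨z, fun δ hδ => ?_, t⟩
    filter_upwards [h, Metric.tendsto_nhds.1 t δ hδ] with n a b using ⟨_, a.1, b⟩
  have far : ∀ {x w : ℕ → E3} {a b : E3}, Tendsto x U (𝓝 a) → Tendsto w U (𝓝 b) →
      (∀ᶠ n in (U : Filter ℕ), 2 ≤ dist (x n) (w n)) → 2 ≤ dist a b :=
    fun ta tb h => ge_of_tendsto (ta.dist tb) h
  have app : ∀ z ∈ Y, ∃ x : ℕ → E3, (∀ᶠ n in (U : Filter ℕ), x n ∈ Z n) ∧ Tendsto x U (𝓝 z) :=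
    fun z hz => by
      have a := hz 1 one_pos
      choose! x x1 x2 using fun n (h : ∃ x ∈ Z n, dist x z < 1) => h
      refine ⟨x, a.mono x1, Metric.tendsto_nhds.2 fun δ hδ => ?_⟩
      filter_upwards [a, hz (min δ 1) (lt_min hδ one_pos)] with n b ⟨w, w1, w2⟩
      have e : x n = w := by
        by_contra e
        linarith [z1 n _ (x1 n b) _ w1 e, dist_triangle_right (x n) w z, x2 n b, min_le_right δ 1]
      rw [e]
      exact w2.trans_le (min_le_left _ _)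
  have sY : Sep Y := fun a ha b hb n => by
    obtain ⟨x, x1, x2⟩ := app a ha
    obtain ⟨w, w1, w2⟩ := app b hb
    refine far x2 w2 ?_
    filter_upwards [x1, w1, (x2.dist w2).eventually (lt_mem_nhds (dist_pos.2 n))] with n p q r
    exact z1 n _ p _ q (dist_pos.1 r)
  have nY : Y.Nonempty := by
    choose x x1 x2 using z2
    obtain ⟨z, hz, -⟩ := lim x 2 (Eventually.of_forall fun n => ⟨x1 n, x2 n⟩)
    exact ⟨z, hz⟩
  have tY : ∀ v ∈ Y, Tw Y 0 v := fun v hv => by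
    obtain ⟨x, x1, x2⟩ := app v hv
    have b : ∀ᶠ n in (U : Filter ℕ), ‖x n‖ < ‖v‖ + 1 :=
      x2.norm.eventually (gt_mem_nhds (lt_add_one _))
    have c : ∀ᶠ n : ℕ in (U : Filter ℕ), ‖v‖ ≤ n :=
      uT (tendsto_natCast_atTop_atTop.eventually (eventually_ge_atTop ‖v‖))
    have d : ∀ᶠ n : ℕ in (U : Filter ℕ), ∃ f : Fin 12 → E3, Function.Injective f ∧
        ∀ i, f i ∈ Z n ∧ f i ≠ x n ∧ dist (x n) (f i) ≤ 2 + 1 / (n + 1) := by
      filter_upwards [x1, b, c] with n p q r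
      obtain ⟨N, n1, n2⟩ := z3 n _ p (by linarith)
      exact ⟨fun i => ((Finset.equivFinOfCardEq n1).symm i : E3),
        Subtype.val_injective.comp (Equiv.injective _), fun i => n2 _ (Subtype.prop _)⟩
    choose! f f1 f2 using fun n : ℕ => fun (h : ∃ f : Fin 12 → E3, Function.Injective f ∧
        ∀ i, f i ∈ Z n ∧ f i ≠ x n ∧ dist (x n) (f i) ≤ 2 + 1 / (n + 1)) => h
    have e : ∀ i, ∃ z ∈ Y, Tendsto (fun n => f n i) U (𝓝 z) := fun i => lim _ (‖v‖ + 4) (by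
      filter_upwards [d, b] with n p q
      refine ⟨(f2 n p i).1, ?_⟩
      have t := dist_triangle_left (f n i) 0 (x n)
      have u : (1 : ℝ) / (n + 1) ≤ 1 := by
        rw [div_le_one (by positivity)]
        linarith [(Nat.cast_nonneg n : (0 : ℝ) ≤ n)]
      rw [dist_zero_right, dist_zero_right] at t
      linarith [(f2 n p i).2.2])
    choose w w1 w2 using e
    have inj : Function.Injective w := fun i j h => by
      by_contra ne
      have := far (w2 i) (w2 j) (d.mono fun n p =>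
        z1 n _ (f2 n p i).1 _ (f2 n p j).1 fun k => ne (f1 n p k))
      rw [h, dist_self] at this
      linarith
    refine ⟨Finset.univ.image w, by rw [Finset.card_image_of_injective _ inj]; simp, fun u hu => ?_⟩
    obtain ⟨i, -, rfl⟩ := Finset.mem_image.1 hu
    refine ⟨w1 i, fun k => ?_, ?_⟩
    · have := far x2 (w2 i) (by
        filter_upwards [d, x1] with n p q
        exact z1 n _ q _ (f2 n p i).1 (f2 n p i).2.1.symm)
      rw [k, dist_self] at this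
      linarith
    · exact le_of_tendsto_of_tendsto (x2.dist (w2 i))
        ((tendsto_const_nhds.add tendsto_one_div_add_atTop_nhds_zero_nat).mono_left uT)
        (d.mono fun n p => (f2 n p i).2.2)
  have c1 : ∀ᶠ n in (U : Filter ℕ), ∀ x ∈ Z n, dist x 0 < ρ → ∃ z ∈ Y, dist x z < ε := by
    by_contra h
    rw [← Ultrafilter.eventually_not] at h
    push Not at h
    choose! x x1 x2 x3 using fun n (k : ∃ x ∈ Z n, dist x 0 < ρ ∧ ∀ z ∈ Y, ε ≤ dist x z) => k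
    obtain ⟨z, hz, t⟩ := lim x ρ (h.mono fun n k => ⟨x1 n k, by simpa using (x2 n k).le⟩)
    obtain ⟨n, a, b⟩ := (h.and (Metric.tendsto_nhds.1 t ε hε)).exists
    linarith [x3 n a z hz]
  have c2 : ∀ᶠ n in (U : Filter ℕ), ∀ z ∈ Y ∩ ball 0 ρ, ∃ x ∈ Z n, dist x z < ε :=
    (eventually_all_finite (KC.fin sY.disj ρ)).2 fun z hz => hz.1 ε hε
  obtain ⟨n, a, b⟩ := (c1.and c2).exists
  exact z4 n Y (hK Y sY nY tY) ⟨a, fun z hz k => b z ⟨hz, k⟩⟩

theorem cpt (hK : ∀ X, Sep X → X.Nonempty → (∀ v ∈ X, Tw X 0 v) → Bar X) {ρ ε : ℝ}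
    (hε : 0 < ε) : ∃ η > 0, ∃ r > 0, ∀ X y, Sep X → (∃ v ∈ X, dist v y ≤ 2) →
      (∀ v ∈ X, dist v y < r → Tw X η v) → ∃ Y, Bar Y ∧ Cl X Y y ρ ε := by
  classical
  obtain ⟨n, hn⟩ := cpt0 hK (ρ := ρ) hε
  refine ⟨1 / (n + 1), by positivity, n + 1, by positivity, fun X y h1 ⟨v, v1, v2⟩ h3 => ?_⟩
  obtain ⟨Y, ⟨s, s1, g, rfl⟩, c1, c2⟩ := hn {x | x + y ∈ X}
    (fun x hx w hw k => by
      simpa using h1 _ hx _ hw fun e => k (add_right_cancel e))
    ⟨v - y, by simpa using v1, by rwa [← dist_eq_norm]⟩ (fun u hu k => by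
      obtain ⟨N, n1, n2⟩ := h3 _ hu (by simpa using k)
      refine ⟨N.image fun w => w - y, by
        rw [Finset.card_image_of_injective _ sub_left_injective, n1], fun w hw => ?_⟩
      obtain ⟨w, hw', rfl⟩ := Finset.mem_image.1 hw
      obtain ⟨a, b, c⟩ := n2 w hw'
      refine ⟨by simpa using a, fun e => b (eq_add_of_sub_eq e), ?_⟩
      rwa [← dist_add_right _ _ y, sub_add_cancel])
  refine ⟨_, ⟨s, s1, g.trans (IsometryEquiv.addRight y), rfl⟩, fun x hx k => ?_, ?_⟩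
  · obtain ⟨_, ⟨z, hz, rfl⟩, e⟩ := c1 (x - y) (by simpa using hx)
      (by rwa [dist_zero_right, ← dist_eq_norm])
    refine ⟨_, ⟨z, hz, rfl⟩, ?_⟩
    rw [← dist_add_right _ _ y, sub_add_cancel] at e
    simpa using e
  · rintro _ ⟨z, hz, rfl⟩ k
    obtain ⟨x, hx, e⟩ := c2 (g z) ⟨z, hz, rfl⟩ (by simpa using k)
    exact ⟨x + y, hx, by simpa using e⟩

end Pool.Agent.Lib.MP_f3b2fd_co.KV
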