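import Pool.Agent.Lib.MP_f3b2fd_co.KEP.V.Up
import Pool.Agent.Lib.MP_f3b2fd_co.KEP.Z.Asm2
import Pool.Agent.Lib.MP_f3b2fd_co.KEP.B.D.Roots

/-! Assembly: the two final statements without hypotheses. -/

set_option autoImplicit false

namespace Pool.Agent.Lib.MP_f3b2fd_co.KV

theorem allU : KU.FinU := KZ.asm2 KD.allRef

theorem allV : FinV :=
  finV allU (KU.locS (KU.typS KU.angS KU.areaS (KU.fourS KU.angS KU.areaS)) KU.patS)
    (KU.layS KU.lay1S (KU.lay2S KU.capS) KU.satS KU.frameS)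
    KD.one_le_hs KD.hs_sq.ge (by rw [KD.hs_sq]; norm_num) le_rfl KN.ff_nonneg KZ.ff_one
    (KA.as2 _ _ _ _ KA.m1_pos.le KA.m2_pos.le KA.six_m1 KN.ff_nonneg KN.g2 KN.g3
      (KS.g4p KN.AA.qs) (KN.clS _))
    (KD.stB_of KZ.fifS KD.covS KD.allRef) (KN.ff_zero KD.hs_pos KD.hs_sq.ge)
    (KN.ff_slope (KD.hs_le.trans (by norm_num)))

end Pool.Agent.Lib.MP_f3b2fd_co.KV
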