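import Pool.Agent.Lib.MP_f3b2fd_co.KEP.V.Cpt
import Pool.Agent.Lib.MP_f3b2fd_co.KEP.U.Iso

/-! Packings that are close to stackings almost everywhere have the largest soft density. -/

set_option autoImplicit false

namespace Pool.Agent.Lib.MP_f3b2fd_co.KV

open MeasureTheory Set Real Metric Filter Topology KC
open scoped ENNReal

theorem low0 {X P : Set E3} {l c : ℝ} (h0 : 0 < l) (hX : Sep X)
    (h12 : ∀ x ∈ X, ∃ N : Finset E3, N.card ≤ 12 ∧
      ∀ w ∈ X, w ≠ x → w ∈ N ∨ 2 * (1 + l) < dist x w) (h1 : l ≤ 1 / 10)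
    (hP : volume P ≤ ENNReal.ofReal √32) (hc : ∀ y ∈ P, ‖y‖ ≤ c) (hcov : ∀ y, ∃ x ∈ X, y - x ∈ P)
    (o : E3) (R : ℝ) : ENNReal.ofReal (Wv l / √32) * volume (ball o (R - (2 + c))) ≤
      volume (ball o R ∩ ⋃ x ∈ X, closedBall x (1 + l)) := by
  classical
  choose! N n1 n2 using h12
  set D : E3 → Set E3 := fun x =>
    closedBall x (1 + l) ∩ ⋂ w ∈ (N x).filter (fun w => w ∈ X ∧ w ≠ x), {y | ‖y - x‖ < ‖y - w‖}
    with hD
  have mD : ∀ x, MeasurableSet (D x) := fun x => measurableSet_closedBall.inter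
    (Finset.measurableSet_biInter _ fun w _ => measurableSet_lt (by fun_prop) (by fun_prop))
  have lt : ∀ x ∈ X, ∀ w ∈ X, x ≠ w → ∀ y ∈ D x, y ∈ D w → ‖y - x‖ < ‖y - w‖ := by
    intro x hx w hw h y a b
    refine mem_iInter₂.1 a.2 w (Finset.mem_filter.2
      ⟨(n2 x hx w hw h.symm).resolve_right ?_, hw, h.symm⟩)
    linarith [dist_triangle_left x w y, mem_closedBall.1 a.1, mem_closedBall.1 b.1]
  have W0 : 0 < Wv l := Wv_pos h0 (by linarith)
  have vD : ∀ x ∈ X, ENNReal.ofReal (Wv l) ≤ volume (D x) := fun x hx => by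
    set M := (N x).filter (fun w => w ∈ X ∧ w ≠ x) with hM
    have c0 := capV_nonneg (r := 1 + l) (h := 1) (by linarith) zero_le_one
    have s : closedBall (0 : E3) (1 + l) ⊆ (fun y => y + x) ⁻¹' D x ∪
        ⋃ w ∈ M, {y : E3 | ‖y‖ ≤ 1 + l ∧ ‖y - (w - x)‖ ≤ ‖y‖} := fun y hy => by
      by_cases e : ∀ w ∈ M, ‖y‖ < ‖y - (w - x)‖
      · refine Or.inl ⟨by simpa using hy, mem_iInter₂.2 fun w hw => ?_⟩
        have := e w hw
        rwa [mem_ofPred_eq, add_sub_cancel_right, show y + x - w = y - (w - x) by abel]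
      · push Not at e
        obtain ⟨w, hw, e⟩ := e
        exact Or.inr (mem_iUnion₂.2 ⟨w, hw, mem_closedBall_zero_iff.1 hy, e⟩)
    have t : volume (⋃ w ∈ M, {y : E3 | ‖y‖ ≤ 1 + l ∧ ‖y - (w - x)‖ ≤ ‖y‖}) ≤
        ENNReal.ofReal (12 * capV (1 + l) 1) := by
      refine (measure_biUnion_finset_le _ _).trans ((Finset.sum_le_card_nsmul _ _
        (ENNReal.ofReal (capV (1 + l) 1)) fun w hw => ?_).trans ?_)
      · obtain ⟨-, a, b⟩ := Finset.mem_filter.1 hw
        rw [cap_closed _ (by linarith) _ (sub_ne_zero.2 b)]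
        have := hX w a x hx b
        rw [dist_eq_norm] at this
        exact ENNReal.ofReal_le_ofReal
          (by linarith [(cap_diff (h := ‖w - x‖ / 2) h0 (by linarith)).1])
      · rw [nsmul_eq_mul, ← ENNReal.ofReal_natCast, ← ENNReal.ofReal_mul (Nat.cast_nonneg _)]
        refine ENNReal.ofReal_le_ofReal (mul_le_mul_of_nonneg_right ?_ c0)
        exact_mod_cast (Finset.card_filter_le _ _).trans (n1 x hx)
    have u := (measure_mono s).trans ((measure_union_le _ _).trans (add_le_add_right t _))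
    rw [measure_preimage_add_right, ball_real _ (by linarith)] at u
    rw [Wv_eq h0, ENNReal.ofReal_sub _ (by positivity)]
    exact tsub_le_iff_right.2 u
  have fi : (X ∩ ball o (R - 2)).Finite := (fin hX.disj (‖o‖ + (R - 2))).subset fun x hx =>
    ⟨hx.1, by
      have := dist_triangle x o 0
      rw [dist_zero_right o] at this
      exact mem_ball.2 (by linarith [mem_ball.1 hx.2])⟩
  set V := fi.toFinset with hV
  have m : ∀ v, v ∈ V ↔ v ∈ X ∧ v ∈ ball o (R - 2) := fun v => by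
    rw [hV, Finite.mem_toFinset, mem_inter_iff]
  have a1 : volume (ball o (R - (2 + c))) ≤ V.card * ENNReal.ofReal √32 := by
    have s : ball o (R - (2 + c)) ⊆ ⋃ x ∈ V, (fun y => y + -x) ⁻¹' P := fun y hy => by
      obtain ⟨x, hx, e⟩ := hcov y
      refine mem_iUnion₂.2 ⟨x, (m x).2 ⟨hx, ?_⟩, by simpa [sub_eq_add_neg] using e⟩
      have := hc _ e
      have t := dist_triangle_left x o y
      rw [mem_ball] at hy ⊢
      rw [dist_eq_norm y x] at t
      linarith
    refine (measure_mono s).trans ((measure_biUnion_finset_le _ _).trans ?_)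
    rw [← nsmul_eq_mul]
    exact Finset.sum_le_card_nsmul _ _ _ fun x _ => (measure_preimage_add_right _ _ _).trans_le hP
  have a2 : V.card * ENNReal.ofReal (Wv l) ≤ volume (⋃ x ∈ V, D x) := by
    rw [measure_biUnion_finset (fun x hx w hw h => Set.disjoint_left.2 fun y a b => lt_asymm
      (lt x ((m x).1 hx).1 w ((m w).1 hw).1 h y a b)
      (lt w ((m w).1 hw).1 x ((m x).1 hx).1 h.symm y b a)) fun x _ => mD x, ← nsmul_eq_mul]
    exact Finset.card_nsmul_le_sum _ _ _ fun x hx => vD x ((m x).1 hx).1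
  refine (mul_le_mul_right a1 _).trans (le_trans (le_of_eq ?_) (a2.trans (measure_mono
    (iUnion₂_subset fun x hx y hy => ⟨?_, mem_iUnion₂.2 ⟨x, ((m x).1 hx).1, hy.1⟩⟩))))
  · rw [mul_left_comm, ← ENNReal.ofReal_mul (by positivity), div_mul_cancel₀ _ (by positivity)]
  · have := dist_triangle y x o
    rw [mem_ball]
    linarith [mem_closedBall.1 hy.1, mem_ball.1 ((m x).1 hx).2]

theorem cov0 : ∃ (P : Set E3) (c : ℝ), volume P ≤ ENNReal.ofReal √32 ∧
    (∀ y ∈ P, ‖y‖ ≤ c) ∧ ∀ (s : ℤ → ℤ) y, ∃ i j k, y - bp s i j k ∈ P := by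
  have h2 : √2 ^ 2 = 2 := Real.sq_sqrt (by norm_num)
  have h0 : (0 : ℝ) < √2 := Real.sqrt_pos.2 (by norm_num)
  set v : Fin 3 → E3 := ![!₂[√2, -√2, 0], !₂[0, √2, -√2], !₂[2 * √2 / 3, 2 * √2 / 3, 2 * √2 / 3]]
    with hv
  have hli : LinearIndependent ℝ v := by
    rw [Fintype.linearIndependent_iff]
    intro g hg
    have k0 := congrArg (fun x : E3 => x 0) hg
    have k1 := congrArg (fun x : E3 => x 1) hg
    have k2 := congrArg (fun x : E3 => x 2) hg
    simp [hv, Fin.sum_univ_three] at k0 k1 k2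
    have z2 : g 2 = 0 := by
      have : g 2 * √2 = 0 := by linarith
      exact (mul_eq_zero.1 this).resolve_right h0.ne'
    rw [z2] at k0 k2
    intro i
    fin_cases i
    · exact (mul_eq_zero.1 (by linarith : g 0 * √2 = 0)).resolve_right h0.ne'
    · exact (mul_eq_zero.1 (by linarith : g 1 * √2 = 0)).resolve_right h0.ne'
    · exact z2
  set c := basisOfLinearIndependentOfCardEqFinrank hli (by simp) with hc
  have cv : ∀ i, c i = v i := fun i => by rw [hc, coe_basisOfLinearIndependentOfCardEqFinrank]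
  obtain ⟨r, hr⟩ := isBounded_iff_forall_norm_le.1 (ZSpan.fundamentalDomain_isBounded c)
  refine ⟨ZSpan.fundamentalDomain c, r, ?_, hr, fun s y => ?_⟩
  · rw [fund_vol]
    refine ENNReal.ofReal_le_ofReal (Real.le_sqrt_of_sq_le ?_)
    rw [sq_abs]
    simp only [cv, hv, Matrix.cons_val]
    have : √2 ^ 6 = 8 := by linear_combination (√2 ^ 4 + 2 * √2 ^ 2 + 4) * h2
    nlinarith
  set k := ⌊c.repr y 2⌋ with hk
  refine ⟨⌊c.repr y 0 - s k / 3⌋, ⌊c.repr y 1 - 2 * s k / 3⌋, k, ?_⟩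
  set i := ⌊c.repr y 0 - s k / 3⌋ with hi
  set j := ⌊c.repr y 1 - 2 * s k / 3⌋ with hj
  have e : bp s i j k =
      ((i : ℝ) + s k / 3) • c 0 + ((j : ℝ) + 2 * s k / 3) • c 1 + (k : ℝ) • c 2 := by
    ext a
    fin_cases a <;> simp [cv, hv, bp] <;> ring
  rw [ZSpan.mem_fundamentalDomain, e]
  intro a
  have f0 := Int.floor_le (c.repr y 0 - s k / 3)
  have f1 := Int.lt_floor_add_one (c.repr y 0 - s k / 3)
  have f2 := Int.floor_le (c.repr y 1 - 2 * s k / 3)
  have f3 := Int.lt_floor_add_one (c.repr y 1 - 2 * s k / 3)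
  have f4 := Int.floor_le (c.repr y 2)
  have f5 := Int.lt_floor_add_one (c.repr y 2)
  fin_cases a <;> simp <;> constructor <;> linarith

theorem low1 : ∃ c : ℝ, ∀ Y, Bar Y → ∀ l : ℝ, 0 < l → l ≤ 1 / 10 → ∀ (o : E3) (R : ℝ),
    ENNReal.ofReal (Wv l / √32) * volume (ball (0 : E3) (R - c)) ≤
      volume (ball o R ∩ ⋃ x ∈ Y, closedBall x (1 + l)) := by
  obtain ⟨P, c, p1, p2, p3⟩ := cov0
  refine ⟨2 + c, ?_⟩
  rintro _ ⟨s, hs, g, rfl⟩ l h0 h1 o R
  have k := low0 (X := {x | ∃ i j k, x = bp s i j k}) h0 (sep_of (barlow hs rfl).1) (by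
    rintro _ ⟨i, j, k, rfl⟩
    obtain ⟨N, n1, n⟩ := near hs i j k
    refine ⟨N, n1, ?_⟩
    rintro _ ⟨i', j', k', rfl⟩ h
    refine (n i' j' k' h).imp And.left fun t => lt_of_pow_lt_pow_left₀ 2 dist_nonneg ?_
    nlinarith) h1 p1 p2 (fun y => by
      obtain ⟨i, j, k, e⟩ := p3 s y
      exact ⟨_, ⟨i, j, k, rfl⟩, e⟩) (g.symm o) R
  rw [Measure.addHaar_ball_center] at k
  refine k.trans ((KU.Iso.vol g _).ge.trans (measure_mono ?_))
  rintro _ ⟨y, ⟨y1, y2⟩, rfl⟩
  obtain ⟨x, hx, y3⟩ := mem_iUnion₂.1 y2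
  refine ⟨?_, mem_iUnion₂.2 ⟨g x, ⟨x, hx, rfl⟩, by simpa [g.dist_eq] using y3⟩⟩
  rw [mem_ball, ← g.apply_symm_apply o, g.dist_eq]
  exact y1

theorem ud_le {A B : Set E3} {a b : ℝ≥0∞} {d : ℝ} (ha : a ≠ ⊤) (hb : b ≠ ⊤) (d0 : 0 ≤ d)
    (h : ∀ R, a * volume (ball 0 R ∩ A) ≤ b * volume (ball 0 (R + d) ∩ B)) :
    a * ud A ≤ b * ud B := by
  set u : ℝ → ℝ≥0∞ := fun R => b * (volume (ball 0 R ∩ B) / volume (ball (0 : E3) R)) with hu
  have r := (ratio_tendsto d).limsup_eq
  have s : limsup (u ∘ fun R => R + d) atTop = limsup u atTop := by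
    rw [limsup_comp, map_add_atTop_eq]
  rw [ud, ud, ← ENNReal.limsup_const_mul_of_ne_top ha, ← ENNReal.limsup_const_mul_of_ne_top hb]
  calc _ ≤ limsup ((u ∘ fun R => R + d) * fun R => ENNReal.ofReal (((R + d) / R) ^ 3)) atTop := by
        refine limsup_le_limsup ?_
        filter_upwards [eventually_gt_atTop 0] with R hR
        have p : ENNReal.ofReal (((R + d) / R) ^ 3) ≠ 0 :=
          (ENNReal.ofReal_pos.2 (by positivity)).ne'
        show _ ≤ b * (volume (ball 0 (R + d) ∩ B) / volume (ball (0 : E3) (R + d))) *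
          ENNReal.ofReal (((R + d) / R) ^ 3)
        rw [ball_ratio R d hR (by positivity), mul_assoc, mul_comm (_ / _), ← mul_div_assoc,
          ← mul_div_assoc, ENNReal.mul_div_mul_left _ _ p ENNReal.ofReal_ne_top, ← mul_div_assoc]
        exact ENNReal.div_le_div_right (h R) _
    _ ≤ _ := ENNReal.limsup_mul_le' (.inr (r ▸ ENNReal.one_ne_top)) (.inr (r ▸ one_ne_zero))
    _ = _ := by rw [r, s, mul_one]

theorem avg {A B : Set E3} (hB : IsOpen B) {a : ℝ≥0∞} {ρ : ℝ}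
    (h : ∀ y ∈ A, a ≤ volume (ball y ρ ∩ B)) (R : ℝ) :
    a * volume (ball 0 R ∩ A) ≤ volume (ball (0 : E3) ρ) * volume (ball 0 (R + ρ) ∩ B) := by
  set C := ball 0 (R + ρ) ∩ B with hC
  have mC : MeasurableSet C := (isOpen_ball.inter hB).measurableSet
  set S : Set (E3 × E3) := {p | dist p.2 p.1 < ρ} ∩ Prod.snd ⁻¹' C with hS
  have mS : MeasurableSet S :=
    (measurableSet_lt (by fun_prop) (by fun_prop)).inter (measurable_snd mC)
  have e1 := Measure.prod_apply (μ := volume) (ν := volume) mS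
  have e2 := Measure.prod_apply_symm (μ := volume) (ν := volume) mS
  have e3 : ∫⁻ p, volume ((fun y => (y, p)) ⁻¹' S) = volume (ball (0 : E3) ρ) * volume C := by
    rw [← lintegral_indicator_const mC]
    refine lintegral_congr fun p => ?_
    by_cases hp : p ∈ C
    · rw [indicator_of_mem hp, ← Measure.addHaar_ball_center volume p]
      congr 1
      ext y
      simp [hS, hp, dist_comm]
    · rw [indicator_of_notMem hp, show (fun y => (y, p)) ⁻¹' S = ∅ by ext y; simp [hS, hp],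
        measure_empty]
  rw [← e3, ← e2, e1]
  refine le_trans (mul_le_mul_right (measure_mono fun y hy => ?_) _)
    (mul_meas_ge_le_lintegral₀ (measurable_measure_prodMk_left mS).aemeasurable a)
  refine (h y hy.2).trans (measure_mono fun p hp => ⟨hp.1, ?_, hp.2⟩)
  have := dist_triangle p y 0
  exact mem_ball.2 (by linarith [mem_ball.1 hp.1, mem_ball.1 hy.1])

theorem back {X : Set E3} {l : ℝ} (h0 : 0 < l) (h1 : l ≤ 1 / 10)
    (h : ∀ ρ ε : ℝ, 0 < ρ → 0 < ε → ud {y | ∃ Y, Bar Y ∧ Cl X Y y ρ ε} = 1) :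
    ENNReal.ofReal (Wv l / √32) ≤ sd X l := by
  obtain ⟨c, hc⟩ := low1
  have k : ∀ ε, 0 < ε → ε < l → ENNReal.ofReal (Wv (l - ε) / √32) ≤ sd X l := fun ε e0 e1 => by
    have t := ENNReal.Tendsto.const_mul (a := ENNReal.ofReal (Wv (l - ε) / √32))
      (ratio_tendsto (-c)) (Or.inl one_ne_zero)
    rw [mul_one] at t
    refine le_of_tendsto t ?_
    filter_upwards [eventually_gt_atTop 0, eventually_ge_atTop c] with ρ r0 r1
    have a := ud_le (A := {y | ∃ Y, Bar Y ∧ Cl X Y y (ρ + 2) ε})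
      (B := ⋃ x ∈ X, closedBall x (1 + l))
      (a := ENNReal.ofReal (Wv (l - ε) / √32) * volume (ball (0 : E3) (ρ - c)))
      (ENNReal.mul_ne_top ENNReal.ofReal_ne_top measure_ball_lt_top.ne)
      (measure_ball_lt_top (μ := volume) (x := (0 : E3)) (r := ρ)).ne r0.le fun R =>
      (avg (B := ⋃ x ∈ X, ball x (1 + l)) (isOpen_biUnion fun _ _ => isOpen_ball) (by
        rintro y ⟨Y, y1, -, y2⟩
        refine (hc Y y1 (l - ε) (by linarith) (by linarith) y ρ).trans (measure_mono ?_)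
        rintro p ⟨p1, p2⟩
        obtain ⟨z, hz, p3⟩ := mem_iUnion₂.1 p2
        have q1 := mem_ball.1 p1
        have q2 := mem_closedBall.1 p3
        obtain ⟨x, hx, q3⟩ := y2 z hz (by linarith [dist_triangle_left z y p])
        exact ⟨p1, mem_iUnion₂.2 ⟨x, hx, mem_ball.2 (by
          linarith [dist_triangle_right p x z])⟩⟩) R).trans (mul_le_mul_right (measure_mono
            (inter_subset_inter_right _ (iUnion₂_mono fun _ _ => ball_subset_closedBall))) _)
    rw [h _ _ (by linarith) e0, mul_one, sub_eq_add_neg ρ, ball_ratio ρ _ r0 (by linarith),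
      ← mul_assoc, mul_comm (volume _)] at a
    exact (ENNReal.mul_le_mul_iff_left (measure_ball_pos _ _ r0).ne' measure_ball_lt_top.ne).1 a
  have ct : Continuous fun ε : ℝ => ENNReal.ofReal (Wv (l - ε) / √32) :=
    ENNReal.continuous_ofReal.comp (by unfold Wv; fun_prop)
  have t := (ct.tendsto 0).mono_left (nhdsWithin_le_nhds (s := Ioi 0))
  rw [sub_zero] at t
  refine le_of_tendsto t ?_
  filter_upwards [Ioo_mem_nhdsGT h0] with ε e using k ε e.1 e.2

end Pool.Agent.Lib.MP_f3b2fd_co.KV
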