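import Pool.Agent.Lib.MP_f3b2fd_co.KEP.V.Low
import Pool.Agent.Lib.MP_f3b2fd_co.KEP.U.Up
import Pool.Agent.Lib.MP_f3b2fd_co.KEP.U.Loc

/-! Packings of largest soft density are close to stackings almost everywhere. -/

set_option autoImplicit false

namespace Pool.Agent.Lib.MP_f3b2fd_co.KV

open MeasureTheory Set Real Metric KEP Filter Topology KU KU.Up
open scoped ENNReal

theorem df_low {f : ℝ → ℝ} {hs δ κ l η : ℝ} (hB : StB f hs δ)
    (hsl : ∀ h, 1 ≤ h → h ≤ hs → 2 * (h - 1) ≤ 1 - f h) (h0 : 0 < l) (h1 : l < 1 / 1000)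
    (hκ : 1 / 10 ≤ κ) (hδ : 1 / 1024 ≤ δ) {V : Finset E3} (hV : KA.Pack V) {v : E3}
    (hv : v ∈ V) : min (1 / 100000) (η / 20) ≤ df f κ l v (nbh hs V v) ∨
      ((nbh hs V v).card = 12 ∧ ∀ w ∈ nbh hs V v, dist v w ≤ 2 + η) := by
  set N := nbh hs V v with hN
  have m : ∀ w ∈ N, w ∈ V ∧ 2 ≤ dist v w ∧ dist v w ≤ 2 * hs := fun w hw => by
    obtain ⟨a, b⟩ := Finset.mem_filter.1 hw
    exact ⟨Finset.mem_of_mem_erase a,
      hV v hv w (Finset.mem_of_mem_erase a) (Finset.ne_of_mem_erase a).symm, b⟩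
  have c0 : ∀ w ∈ N, 0 ≤ capV (1 + l) (dist v w / 2) := fun w _ =>
    capV_nonneg (by linarith) (by positivity)
  have l2 : l ^ 2 ≤ 1 / 1000000 := by nlinarith
  have c1 : capV (1 + l) 1 ≤ 5 / 1000000 := by
    rw [cap_one h0]
    have a1 : π * l ^ 2 ≤ 4 / 1000000 := by nlinarith [pi_lt_four, pi_pos, sq_nonneg l]
    have a2 : 0 ≤ π * l ^ 2 := by positivity
    nlinarith
  have hκ0 : 0 ≤ κ := by linarith
  have m1 := min_le_left (1 / 100000) (η / 20)
  have m2 := min_le_right (1 / 100000) (η / 20)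
  by_cases hk : 13 ≤ N.card
  · have inj : InjOn (fun w => w - v) N := fun _ _ _ _ h => sub_left_injective h
    have := hB (N.image fun w => w - v) (fun u hu => by
      obtain ⟨w, hw, rfl⟩ := Finset.mem_image.1 hu
      rw [← dist_eq_norm, dist_comm]
      exact (m w hw).2) (fun u hu u' hu' hne => by
      obtain ⟨w, hw, rfl⟩ := Finset.mem_image.1 hu
      obtain ⟨w', hw', rfl⟩ := Finset.mem_image.1 hu'
      rw [sub_sub_sub_cancel_right, ← dist_eq_norm]
      exact hV w (m w hw).1 w' (m w' hw').1 fun h => hne (by rw [h]))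
      (by rwa [Finset.card_image_of_injOn inj])
    rw [Finset.sum_image inj] at this
    simp only [← dist_eq_norm, dist_comm _ v] at this
    have a1 := mul_le_mul_of_nonneg_left this hκ0
    have a2 : 1 / 10 * (1 / 1024) ≤ κ * δ := mul_le_mul hκ hδ (by norm_num) hκ0
    have a3 := Finset.sum_nonneg c0
    left
    unfold df
    linarith
  · have p : ∑ w ∈ N, (dist v w - 2) / 20 ≤ ∑ w ∈ N, (κ * (1 - f (dist v w / 2)) -
        (capV (1 + l) 1 - capV (1 + l) (dist v w / 2))) := Finset.sum_le_sum fun w hw => by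
      obtain ⟨-, a, b⟩ := m w hw
      have d1 := (cap_diff (h := dist v w / 2) h0 (by linarith)).2
      have d2 := mul_le_mul_of_nonneg_left (hsl (dist v w / 2) (by linarith) (by linarith)) hκ0
      have d3 : π * (2 * l + l ^ 2) ≤ 1 / 10 := by nlinarith [pi_lt_four, pi_pos]
      have d4 := mul_le_mul_of_nonneg_right d3 (show 0 ≤ dist v w / 2 - 1 by linarith)
      have d5 := mul_le_mul_of_nonneg_right hκ (show 0 ≤ dist v w / 2 - 1 by linarith)
      linarith
    rw [Finset.sum_sub_distrib, Finset.sum_sub_distrib, ← Finset.mul_sum, Finset.sum_sub_distrib,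
      Finset.sum_const, Finset.sum_const, nsmul_eq_mul, nsmul_eq_mul] at p
    have k12 : (N.card : ℝ) ≤ 12 := by exact_mod_cast (by omega : N.card ≤ 12)
    have q0 : ∀ w ∈ N, 0 ≤ (dist v w - 2) / 20 := fun w hw => by linarith [(m w hw).2.1]
    have q1 := Finset.sum_nonneg q0
    have q2 := mul_le_mul_of_nonneg_left (show 1 / 20 ≤ κ - capV (1 + l) 1 by linarith)
      (sub_nonneg.2 k12)
    have q3 : ∑ w ∈ N, (dist v w - 2) / 20 + (12 - N.card) / 20 ≤ df f κ l v N := by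
      unfold df
      linarith
    by_cases e : N.card = 12
    · refine or_iff_not_imp_right.2 fun h => ?_
      push Not at h
      obtain ⟨w, hw, t⟩ := h e
      linarith [Finset.single_le_sum q0 hw]
    · have : (N.card : ℝ) ≤ 11 := by exact_mod_cast (by omega : N.card ≤ 11)
      left
      linarith

theorem key2 {a b hs l : ℝ} {f : ℝ → ℝ} (hab : 8 * a - 96 * b = √32)
    (hA : ∀ V : Finset E3, KA.Pack V →
      8 * a * V.card - 8 * b * ∑ v ∈ V, ∑ w ∈ V.erase v, f (dist v w / 2) ≤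
        (volume (⋃ v ∈ V, ball v √2)).toReal)
    (hz : ∀ h, hs < h → f h = 0) (h0 : 0 < l) (h1 : l < 1 / 1000) {X : Set E3}
    (hX : X.PairwiseDisjoint fun x => ball x 1) {c R : ℝ} (hc : 2 ≤ c) :
    volume.real (ball 0 R ∩ ⋃ x ∈ X, closedBall x (1 + l)) +
      ∑ v ∈ (KC.fin hX (R + c)).toFinset,
        df f (8 * b * (Wv l / √32)) l v (nbh hs (KC.fin hX (R + c)).toFinset v) ≤
      Wv l / √32 * volume.real (⋃ v ∈ (KC.fin hX (R + c)).toFinset, ball v √2) := by
  have hP := pack hX (R + c)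
  set V := (KC.fin hX (R + c)).toFinset with hV
  have q0 : (0 : ℝ) < √32 := by positivity
  have W0 : 0 < Wv l := Wv_pos h0 (by linarith)
  have m : ∀ v, v ∈ V ↔ v ∈ X ∧ v ∈ ball (0 : E3) (R + c) := fun v => by
    rw [hV, Finite.mem_toFinset, mem_inter_iff]
  have s1 : ball 0 R ∩ ⋃ x ∈ X, closedBall x (1 + l) ⊆ ⋃ v ∈ V, KC.vor V (1 + l) v := by
    rintro y ⟨y1, y2⟩
    obtain ⟨x, hx, y3⟩ := mem_iUnion₂.1 y2
    have hxV : x ∈ V := (m x).2 ⟨hx, by
      have := dist_triangle_left x 0 y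
      rw [mem_ball] at y1 ⊢
      linarith [mem_closedBall.1 y3]⟩
    obtain ⟨v, hv, hm⟩ := V.exists_min_image (fun v => ‖y - v‖) ⟨x, hxV⟩
    exact mem_iUnion₂.2 ⟨v, hv, (hm x hxV).trans (mem_closedBall_iff_norm.1 y3), hm⟩
  have s3 : (⋃ v ∈ V, KC.vor V (1 + l) v) ⊆ ball (0 : E3) (R + (c + 2)) :=
    iUnion₂_subset fun v hv y hy => by
      have := dist_triangle y v 0
      have t := hy.1
      rw [← dist_eq_norm] at t
      rw [mem_ball]
      linarith [mem_ball.1 ((m v).1 hv).2]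
  have a1 := (measureReal_mono s1 (ne_top_of_le_ne_top measure_ball_lt_top.ne
    (measure_mono (μ := volume) s3))).trans (measureReal_biUnion_finset_le _ _)
  have a2 := Finset.sum_le_sum fun v (hv : v ∈ V) =>
    loc (κ := 8 * b * (Wv l / √32)) hz h0 h1 hP hv
  have a4 := mul_le_mul_of_nonneg_left (hA V hP) (div_pos W0 q0).le
  rw [Finset.sum_add_distrib] at a2
  refine (add_le_add a1 le_rfl).trans (a2.trans (le_trans (le_of_eq ?_) a4))
  rw [Finset.sum_add_distrib, ← Finset.mul_sum, Finset.sum_sub_distrib, Finset.sum_const,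
    Finset.sum_const, nsmul_eq_mul, nsmul_eq_mul, show 8 * a = √32 + 96 * b by linarith]
  field_simp
  ring

theorem ud_one (A : Set E3) : ud A ≤ 1 :=
  limsup_le_of_le (by isBoundedDefault) (Eventually.of_forall fun _ =>
    ENNReal.div_le_of_le_mul (by rw [one_mul]; exact measure_mono inter_subset_left))

theorem forth {a b hs δ : ℝ} {f : ℝ → ℝ} (hab : 8 * a - 96 * b = √32) (hb : 1 / 40 ≤ b)
    (hδ : 1 / 1024 ≤ δ) (hs1 : 1 ≤ hs)
    (hA : ∀ V : Finset E3, KA.Pack V →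
      8 * a * V.card - 8 * b * ∑ v ∈ V, ∑ w ∈ V.erase v, f (dist v w / 2) ≤
        (volume (⋃ v ∈ V, ball v √2)).toReal)
    (hB : StB f hs δ) (hz : ∀ h, hs < h → f h = 0)
    (hsl : ∀ h, 1 ≤ h → h ≤ hs → 2 * (h - 1) ≤ 1 - f h) {l : ℝ} (h0 : 0 < l) (h1 : l < 1 / 1000)
    {X : Set E3} (hX : X.PairwiseDisjoint fun x => ball x 1)
    (e : KC.sd X l = ENNReal.ofReal (Wv l / √32)) {G : Set E3} {η r : ℝ} (η0 : 0 < η) (r0 : 0 < r)
    (hG : ∀ y, (∃ v ∈ X, dist v y ≤ 2) → (∀ v ∈ X, dist v y < r → Tw X η v) → y ∈ G) :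
    ud G = 1 := by
  classical
  have q0 : (0 : ℝ) < √32 := by positivity
  have q1 : √32 ≤ 6 := Real.sqrt_le_iff.2 ⟨by norm_num, by norm_num⟩
  have q2 : √2 ≤ 2 := Real.sqrt_le_iff.2 ⟨by norm_num, by norm_num⟩
  have hW : 4 ≤ Wv l := by
    have : 1 ≤ 1 + 3 * l - 6 * l ^ 2 - 5 * l ^ 3 := by nlinarith [mul_pos h0 h0]
    rw [Wv]
    nlinarith [pi_gt_three]
  have W0 : 0 < Wv l / √32 := div_pos (by linarith) q0
  have k0 : 1 / 10 ≤ 8 * b * (Wv l / √32) := by
    have : 2 / 3 ≤ Wv l / √32 := by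
      rw [div_le_div_iff₀ (by norm_num) q0]
      linarith
    nlinarith
  set θ := Wv l / √32 with hθ
  refine le_antisymm (ud_one G) (le_of_not_gt fun h => ?_)
  obtain ⟨γ, γ0, γ1, γ2⟩ := ENNReal.lt_iff_exists_real_btwn.1 h
  rw [ENNReal.ofReal_lt_one] at γ2
  obtain ⟨d, hd⟩ := eventually_atTop.1 (eventually_lt_of_limsup_lt γ1)
  set κ := min (1 / 100000) (η / 20) with hκ
  have κ0 : 0 < κ := lt_min (by norm_num) (by positivity)
  set ω := π * 4 / 3 with hω
  have ω0 : 0 < ω := by positivity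
  set t := min 1 (κ / (θ * (r ^ 3 * ω))) with ht
  have t0 : 0 < t := lt_min one_pos (by positivity)
  have t1 : t ≤ 1 := min_le_left _ _
  have t2 : t * (θ * (r ^ 3 * ω)) ≤ κ := (le_div_iff₀ (by positivity)).1 (min_le_right _ _)
  have z : KC.sd X l ≤ ENNReal.ofReal (θ - t * θ * (1 - γ)) := by
    refine lim (d := max d 0) (c := r + 2 * hs + 2) fun R hR hdR => ?_
    have K := key2 hab hA hz h0 h1 hX (c := r + 2 * hs) (R := R) (by linarith)
    set V := (KC.fin hX (R + (r + 2 * hs))).toFinset with hV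
    have m : ∀ v, v ∈ V ↔ v ∈ X ∧ v ∈ ball (0 : E3) (R + (r + 2 * hs)) := fun v => by
      rw [hV, Finite.mem_toFinset, mem_inter_iff]
    set L := V.filter fun u => ‖u‖ < R + r ∧ ¬ Tw X η u with hL
    have a2 : ∀ u ∈ L, κ ≤ df f (8 * b * θ) l u (nbh hs V u) := fun u hu => by
      obtain ⟨u0, u1, u2⟩ := Finset.mem_filter.1 hu
      refine (df_low hB hsl h0 h1 k0 hδ (pack hX _) u0).resolve_right fun k => u2 ⟨_, k.1, ?_⟩
      intro w hw
      obtain ⟨w1, w2, -⟩ := (mem_nbh hX (by linarith) w).1 hw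
      exact ⟨w1, w2, k.2 w hw⟩
    have a3 := Finset.sum_le_sum_of_subset_of_nonneg (s := L) (Finset.filter_subset _ V)
      (f := fun u => df f (8 * b * θ) l u (nbh hs V u)) fun u hu _ =>
        (df_pos hB hsl h0 h1 k0 hδ (pack hX _) hu).1
    have a4 := Finset.card_nsmul_le_sum _ _ _ a2
    rw [nsmul_eq_mul] at a4
    have s2 : (⋃ v ∈ V, ball v √2) ⊆ ball (0 : E3) (R + (r + 2 * hs + 2)) :=
      iUnion₂_subset fun v hv y hy => by
        have := dist_triangle y v 0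
        rw [mem_ball] at hy ⊢
        linarith [mem_ball.1 ((m v).1 hv).2]
    have s3 : (⋃ v ∈ V, ball v √2) ⊆ (ball (0 : E3) (R + (r + 2 * hs + 2)) \ ball 0 R) ∪
        ((ball 0 R ∩ G) ∪ ⋃ u ∈ L, ball u r) := fun y hy => by
      by_cases y1 : y ∈ ball (0 : E3) R
      · refine Or.inr (or_iff_not_imp_right.2 fun k => ⟨y1, hG y ?_ fun v hv n => ?_⟩)
        · obtain ⟨v, hv, y2⟩ := mem_iUnion₂.1 hy
          exact ⟨v, ((m v).1 hv).1, by linarith [mem_ball'.1 y2]⟩
        · by_contra u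
          have := dist_triangle v y 0
          rw [dist_zero_right v] at this
          have y2 := mem_ball.1 y1
          exact k (mem_iUnion₂.2 ⟨v, Finset.mem_filter.2 ⟨(m v).2 ⟨hv,
            mem_ball_zero_iff.2 (by linarith)⟩, by linarith, u⟩, mem_ball'.2 n⟩)
      · exact Or.inl ⟨s2 hy, y1⟩
    have f1 : volume (ball 0 R ∩ G) ≠ ⊤ :=
      ne_top_of_le_ne_top measure_ball_lt_top.ne (measure_mono inter_subset_left)
    have f2 : volume (⋃ u ∈ L, ball u r) ≠ ⊤ := ((measure_biUnion_finset_le _ _).trans_lt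
      (ENNReal.sum_lt_top.2 fun _ _ => measure_ball_lt_top)).ne
    have b1 := measureReal_mono (μ := volume) s2 measure_ball_lt_top.ne
    have b2 := (measureReal_mono (μ := volume) s3 (measure_union_ne_top
      (ne_top_of_le_ne_top measure_ball_lt_top.ne (measure_mono sdiff_subset))
      (measure_union_ne_top f1 f2))).trans ((measureReal_union_le _ _).trans (add_le_add le_rfl
        ((measureReal_union_le _ _).trans (add_le_add le_rfl (measureReal_biUnion_finset_le _ _)))))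
    rw [measureReal_sdiff (ball_subset_ball (by linarith)) measurableSet_ball
      measure_ball_lt_top.ne, bv _ hR.le, Finset.sum_congr rfl fun u _ => bv u r0.le,
      Finset.sum_const, nsmul_eq_mul] at b2
    have b3 : volume.real (ball 0 R ∩ G) ≤ γ * (R ^ 3 * ω) := by
      have := (ENNReal.div_le_iff (measure_ball_pos _ _ hR).ne' measure_ball_lt_top.ne).1
        (hd R ((le_max_left _ _).trans hdR)).le
      have := ENNReal.toReal_mono
        (ENNReal.mul_ne_top ENNReal.ofReal_ne_top measure_ball_lt_top.ne) this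
      rwa [ENNReal.toReal_mul, ENNReal.toReal_ofReal γ0, ← measureReal_def, ← measureReal_def,
        bv _ hR.le] at this
    rw [bv _ (by linarith)] at b1 b2
    have b4 : (R + -max d 0) ^ 3 * ω ≤ R ^ 3 * ω := mul_le_mul_of_nonneg_right
      (pow_le_pow_left₀ (by linarith) (by linarith [le_max_right d 0]) 3) ω0.le
    have c1 := mul_le_mul_of_nonneg_left b1 (mul_nonneg (sub_nonneg.2 t1) W0.le)
    have c2 := mul_le_mul_of_nonneg_left (b2.trans (add_le_add le_rfl (add_le_add b3 le_rfl)))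
      (mul_pos t0 W0).le
    have c3 := mul_le_mul_of_nonneg_left t2 (Nat.cast_nonneg L.card)
    have c4 := mul_le_mul_of_nonneg_left b4 (mul_pos (mul_pos t0 W0) (sub_pos.2 γ2)).le
    rw [← hθ] at K
    rw [← hω] at c1 c2 ⊢
    linarith
  rw [e, ENNReal.ofReal_le_ofReal_iff'] at z
  rcases z with z | z
  · linarith [mul_pos (mul_pos t0 W0) (sub_pos.2 γ2)]
  · linarith

theorem finV (hF : FinU) (hL : LocS) (hY : LayS) {hs δ : ℝ} {f : ℝ → ℝ}
    (h1 : 1 ≤ hs) (h2 : 425 / 256 ≤ hs ^ 2) (h3 : hs ^ 2 ≤ 2) (hδ : 1 / 1024 ≤ δ)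
    (f0 : ∀ h, 0 ≤ f h) (f1 : f 1 = 1)
    (hA : ∀ V : Finset E3, KA.Pack V →
      8 * KA.m1 * V.card - 8 * KA.m2 * ∑ v ∈ V, ∑ w ∈ V.erase v, f (dist v w / 2) ≤
        (volume (⋃ v ∈ V, ball v √2)).toReal)
    (hB : StB f hs δ) (hz : ∀ h, hs < h → f h = 0)
    (hsl : ∀ h, 1 ≤ h → h ≤ hs → 2 * (h - 1) ≤ 1 - f h) : FinV := by
  intro l l0 l1 X hX
  refine ⟨fun e ρ ε _ ε0 => ?_, fun h => le_antisymm ((hF l l0 l1).1 X hX)
    (back l0 (by linarith) h)⟩
  obtain ⟨η, η0, r, r0, k⟩ := cpt (fun Y p n t => hY Y p n (hL hs δ f Y h1 h2 h3 (by linarith)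
    f0 f1 hB p fun v hv => by
      obtain ⟨N, n1, n2⟩ := t v hv
      have d : ∀ w ∈ N, dist v w = 2 := fun w hw => le_antisymm
        (by linarith [(n2 w hw).2.2]) (p v hv w (n2 w hw).1 (n2 w hw).2.1.symm)
      refine ⟨N, n1, fun w hw => ⟨(n2 w hw).1, d w hw⟩, fun w hw ne => ?_⟩
      refine (le_or_gt (dist v w) (2 * hs)).imp_left fun h => ?_
      obtain ⟨u, hu, k⟩ := Loc.sat h1 (by linarith) f0 f1 hB n1 d
        (fun x hx y hy => p x (n2 x hx).1 y (n2 y hy).1) (q := w - v)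
        (by rw [← dist_eq_norm]; exact p w hw v hv ne) (by rwa [← dist_eq_norm, dist_comm])
      rw [sub_sub_sub_cancel_right, ← dist_eq_norm] at k
      by_contra a
      linarith [p w hw u (n2 u hu).1 fun e => a (e ▸ hu)])) (ρ := ρ) ε0
  exact forth KA.hab (by linarith [KA.m2_lo]) hδ h1 hA hB hz hsl l0 l1 hX e η0 r0
    fun y a b => k X y (sep_of hX) a b

end Pool.Agent.Lib.MP_f3b2fd_co.KV
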